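import Pool.Agent.H3.AM.Targets
import Pool.Agent.H3.AM.Basic

/-!
# Alperin–McKay reduction (MP_657073_al), module D4: fusion in the centraliser
-/

open scoped Classical

namespace H25.AM

open AMc

variable {Γ : Type} [Group Γ] [Finite Γ]

/-- `P.relIndex (C ⊓ N(P)) ≡ P.relIndex C` modulo `ℓ`. -/
theorem relIndex_normalizer_modEq {ℓ : ℕ} [Fact ℓ.Prime] {P C : Subgroup Γ} (hP : IsPGroup ℓ P)
    (hPC : P ≤ C) :
    P.relIndex (C ⊓ Subgroup.normalizer (P : Set Γ)) ≡ P.relIndex C [MOD ℓ] := by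
  have hp : IsPGroup ℓ (P.subgroupOf C) := hP.comap_of_injective _ Subtype.val_injective
  obtain ⟨n, hn⟩ := (IsPGroup.iff_card).1 hp
  have h := Sylow.card_quotient_normalizer_modEq_card_quotient (G := C) (p := ℓ) (n := n)
    (H := P.subgroupOf C) hn
  have e1 : Nat.card (C ⧸ P.subgroupOf C) = P.relIndex C := rfl
  have e2 : Nat.card (Subgroup.normalizer ((P.subgroupOf C : Subgroup C) : Set C) ⧸
      (P.subgroupOf C).comap (Subgroup.normalizer ((P.subgroupOf C : Subgroup C) : Set C)).subtype)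
      = P.relIndex (C ⊓ Subgroup.normalizer (P : Set Γ)) := by
    have h1 : Nat.card (Subgroup.normalizer ((P.subgroupOf C : Subgroup C) : Set C) ⧸
      (P.subgroupOf C).comap (Subgroup.normalizer ((P.subgroupOf C : Subgroup C) : Set C)).subtype)
      = (P.subgroupOf C).relIndex (Subgroup.normalizer ((P.subgroupOf C : Subgroup C) : Set C)) := rfl
    rw [h1, ← Subgroup.relIndex_map_map_of_injective (P.subgroupOf C) _ C.subtype_injective]
    have h2 : (P.subgroupOf C).map C.subtype = P := by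
      rw [Subgroup.subgroupOf_map_subtype, inf_eq_left.2 hPC]
    have h3 : (Subgroup.normalizer ((P.subgroupOf C : Subgroup C) : Set C)).map C.subtype
        = C ⊓ Subgroup.normalizer (P : Set Γ) := by
      rw [← Subgroup.subgroupOf_normalizer_eq hPC, Subgroup.subgroupOf_map_subtype, inf_comm]
    rw [h2, h3]
  rw [e1, e2] at h
  exact h

theorem not_dvd_of_normalizer {ℓ : ℕ} [Fact ℓ.Prime] {P C : Subgroup Γ} (hP : IsPGroup ℓ P)
    (hPC : P ≤ C) (h : ¬ ℓ ∣ P.relIndex (C ⊓ Subgroup.normalizer (P : Set Γ))) :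
    ¬ ℓ ∣ P.relIndex C := by
  intro hd
  apply h
  have := relIndex_normalizer_modEq hP hPC
  exact (Nat.modEq_zero_iff_dvd).1 (this.trans ((Nat.modEq_zero_iff_dvd).2 hd))

/-- two Sylow subgroups of `C` are conjugate in `C` -/
theorem sylow_conj {ℓ : ℕ} [Fact ℓ.Prime] {C A B : Subgroup Γ} (hA : IsPGroup ℓ A)
    (hB : IsPGroup ℓ B) (hAC : A ≤ C) (hBC : B ≤ C) (hA' : ¬ ℓ ∣ A.relIndex C)
    (hB' : ¬ ℓ ∣ B.relIndex C) :
    ∃ c ∈ C, A.map (MulAut.conj c).toMonoidHom = B := by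
  have hAp : IsPGroup ℓ (A.subgroupOf C) := hA.comap_of_injective _ Subtype.val_injective
  have hBp : IsPGroup ℓ (B.subgroupOf C) := hB.comap_of_injective _ Subtype.val_injective
  let S : Sylow ℓ C := hAp.toSylow hA'
  let T : Sylow ℓ C := hBp.toSylow hB'
  obtain ⟨c, hc⟩ := MulAction.exists_smul_eq C S T
  refine ⟨c, c.2, ?_⟩
  ext g
  constructor
  · rintro ⟨a, ha, rfl⟩
    have h1 : (⟨a, hAC ha⟩ : C) ∈ A.subgroupOf C := Subgroup.mem_subgroupOf.2 ha
    have h2 : c * (⟨a, hAC ha⟩ : C) * c⁻¹ ∈ (T : Subgroup C) := by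
      rw [← hc, Sylow.coe_subgroup_smul, Subgroup.mem_pointwise_smul_iff_inv_smul_mem]
      have : ((MulAut.conj c)⁻¹ • (c * (⟨a, hAC ha⟩ : C) * c⁻¹) : C) = ⟨a, hAC ha⟩ := by
        simp; group
      rw [this]; exact h1
    have h3 : c * (⟨a, hAC ha⟩ : C) * c⁻¹ ∈ B.subgroupOf C := h2
    rw [Subgroup.mem_subgroupOf] at h3
    simpa using h3
  · intro hg
    have h1 : (⟨g, hBC hg⟩ : C) ∈ (T : Subgroup C) := by
      show (⟨g, hBC hg⟩ : C) ∈ B.subgroupOf C
      exact Subgroup.mem_subgroupOf.2 hg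
    rw [← hc, Sylow.coe_subgroup_smul, Subgroup.mem_pointwise_smul_iff_inv_smul_mem] at h1
    have h2 : ((MulAut.conj c)⁻¹ • (⟨g, hBC hg⟩ : C) : C) ∈ A.subgroupOf C := h1
    rw [Subgroup.mem_subgroupOf] at h2
    refine ⟨_, h2, ?_⟩
    simp [MulAut.conj_apply]
    group

/-- relative indices in subgroups of the same order -/
theorem relIndex_eq_of_card {A B C D : Subgroup Γ} (hAC : A ≤ C) (hBD : B ≤ D)
    (h1 : Nat.card A = Nat.card B) (h2 : Nat.card C = Nat.card D) : A.relIndex C = B.relIndex D := by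
  have e1 : Nat.card A * A.relIndex C = Nat.card C := by
    have := Subgroup.card_mul_index (A.subgroupOf C)
    rw [Nat.card_congr (Subgroup.subgroupOfEquivOfLe hAC).toEquiv] at this
    exact this
  have e2 : Nat.card B * B.relIndex D = Nat.card D := by
    have := Subgroup.card_mul_index (B.subgroupOf D)
    rw [Nat.card_congr (Subgroup.subgroupOfEquivOfLe hBD).toEquiv] at this
    exact this
  have h3 : Nat.card A * A.relIndex C = Nat.card A * B.relIndex D := by
    rw [e1, h2, ← e2, h1]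
  exact Nat.eq_of_mul_eq_mul_left Nat.card_pos h3

omit [Finite Γ] in
theorem card_map_conj (A : Subgroup Γ) (u : Γ) :
    Nat.card (A.map (MulAut.conj u).toMonoidHom) = Nat.card A :=
  Nat.card_congr (A.equivMapOfInjective _ (MulAut.conj u).injective).toEquiv.symm

omit [Finite Γ] in
theorem conj_centralizer (K : Subgroup Γ) (x u : Γ) (hu : ∀ g, u * g * u⁻¹ ∈ K ↔ g ∈ K) :
    (Subgroup.centralizer {x} ⊓ K).map (MulAut.conj u).toMonoidHom
      = Subgroup.centralizer {u * x * u⁻¹} ⊓ K := by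
  ext g
  constructor
  · rintro ⟨a, ⟨ha1, ha2⟩, rfl⟩
    have ha1' := Subgroup.mem_centralizer_singleton_iff.1 ha1
    refine ⟨?_, ?_⟩
    · apply Subgroup.mem_centralizer_singleton_iff.2
      simp only [MulEquiv.coe_toMonoidHom, MulAut.conj_apply]
      have e1 : u * a * u⁻¹ * (u * x * u⁻¹) = u * (a * x) * u⁻¹ := by group
      rw [e1, ha1']; group
    · simp only [MulEquiv.coe_toMonoidHom, MulAut.conj_apply]
      exact (hu a).2 ha2
  · rintro ⟨hg1, hg2⟩
    have hg1' := Subgroup.mem_centralizer_singleton_iff.1 hg1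
    refine ⟨u⁻¹ * g * u, ⟨?_, ?_⟩, ?_⟩
    · apply Subgroup.mem_centralizer_singleton_iff.2
      have e1 : u⁻¹ * g * u * x = u⁻¹ * (g * (u * x * u⁻¹)) * u := by group
      rw [e1, hg1']; group
    · show u⁻¹ * g * u ∈ K
      rw [← hu]
      have : u * (u⁻¹ * g * u) * u⁻¹ = g := by group
      rw [this]; exact hg2
    · simp only [MulEquiv.coe_toMonoidHom, MulAut.conj_apply]
      group

/-- fusion in the centraliser: the general form -/
theorem fusion {ℓ : ℕ} [Fact ℓ.Prime] {K U P : Subgroup Γ} (hKU : K ≤ U)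
    (hn : ∀ u ∈ U, ∀ g ∈ K, u * g * u⁻¹ ∈ K) (hP : IsPGroup ℓ P) (hPK : P ≤ K) {x y : Γ}
    (hxC : x ∈ Subgroup.centralizer (P : Set Γ))
    (hx : ¬ ℓ ∣ P.relIndex (Subgroup.centralizer {x} ⊓ K))
    (hyC : y ∈ Subgroup.centralizer (P : Set Γ)) {u : Γ} (hu : u ∈ U) (hy : y = u * x * u⁻¹) :
    ∃ n ∈ U ⊓ Subgroup.normalizer (P : Set Γ), y = n * x * n⁻¹ := by
  have hPx : P ≤ Subgroup.centralizer {x} ⊓ K := by
    intro p hp
    refine ⟨?_, hPK hp⟩
    apply Subgroup.mem_centralizer_singleton_iff.2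
    exact (Subgroup.mem_centralizer_iff.1 hxC p hp)
  have hPy : P ≤ Subgroup.centralizer {y} ⊓ K := by
    intro p hp
    refine ⟨?_, hPK hp⟩
    apply Subgroup.mem_centralizer_singleton_iff.2
    exact (Subgroup.mem_centralizer_iff.1 hyC p hp)
  have hiff : ∀ g, u * g * u⁻¹ ∈ K ↔ g ∈ K := by
    intro g
    constructor
    · intro h
      have h2 := hn u⁻¹ (U.inv_mem hu) _ h
      have h3 : u⁻¹ * (u * g * u⁻¹) * u⁻¹⁻¹ = g := by group
      rwa [h3] at h2
    · exact hn u hu g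
  have hC := conj_centralizer K x u hiff
  rw [← hy] at hC
  have hP'C : P.map (MulAut.conj u).toMonoidHom ≤ Subgroup.centralizer {y} ⊓ K := by
    rw [← hC]; exact Subgroup.map_mono hPx
  have hcard : Nat.card (Subgroup.centralizer {y} ⊓ K : Subgroup Γ)
      = Nat.card (Subgroup.centralizer {x} ⊓ K : Subgroup Γ) := by
    rw [← hC]; exact card_map_conj _ _
  have i1 : P.relIndex (Subgroup.centralizer {y} ⊓ K) = P.relIndex (Subgroup.centralizer {x} ⊓ K) :=
    relIndex_eq_of_card hPy hPx rfl hcard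
  have i2 : (P.map (MulAut.conj u).toMonoidHom).relIndex (Subgroup.centralizer {y} ⊓ K)
      = P.relIndex (Subgroup.centralizer {x} ⊓ K) :=
    relIndex_eq_of_card hP'C hPx (card_map_conj _ _) hcard
  obtain ⟨c, hc, hcP⟩ := sylow_conj (hP.map _) hP hP'C hPy (by rw [i2]; exact hx)
    (by rw [i1]; exact hx)
  refine ⟨c * u, ⟨U.mul_mem (hKU hc.2) hu, ?_⟩, ?_⟩
  · apply Subgroup.mem_normalizer_iff_map_conj_eq.2
    have e : (MulAut.conj (c * u)).toMonoidHom
        = (MulAut.conj c).toMonoidHom.comp (MulAut.conj u).toMonoidHom := by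
      ext g
      simp [MulAut.conj_apply]
    have : P.map (MulAut.conj (c * u)).toMonoidHom = P := by
      rw [e, ← Subgroup.map_map, hcP]
    exact this
  · have hcy := Subgroup.mem_centralizer_singleton_iff.1 hc.1
    have e1 : c * u * x * (c * u)⁻¹ = c * (u * x * u⁻¹) * c⁻¹ := by group
    rw [e1, ← hy, hcy]; group

theorem d4 : T_D4 := by
  intro ℓ _ Γ _ _ K U P hKU hn hP hPK x _ hxC hx y hyC hy
  obtain ⟨u, hu, hyu⟩ := mem_cls.1 hy
  obtain ⟨n, hn', hyn⟩ := fusion hKU hn hP hPK hxC hx hyC hu hyu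
  exact mem_cls.2 ⟨n, hn', hyn⟩

end H25.AM
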