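import Pool.Agent.H3.AM.Targets
import Pool.Agent.H3.AM.Basic

/-!
# Alperin–McKay reduction (MP_657073_al), module D3
-/

open scoped Classical

namespace H25.AM

open AMc

/-- a finite `ℓ`-group acting linearly on a nonzero subspace in characteristic `ℓ` has a nonzero
fixed vector -/
theorem fixed_vec {ℓ : ℕ} [Fact ℓ.Prime] {F : Type} [Field F] [CharP F ℓ] {V : Type}
    [AddCommGroup V] [Module F V] {T : Type} [Group T] [Finite T] (hT : IsPGroup ℓ T)
    (ρ : T → V →ₗ[F] V) (h1 : ρ 1 = LinearMap.id) (hmul : ∀ s t, ρ (s * t) = (ρ s).comp (ρ t))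
    (W : Submodule F V) (hW : ∀ t, ∀ w ∈ W, ρ t w ∈ W) (hne : W ≠ ⊥) :
    ∃ v ∈ W, v ≠ 0 ∧ ∀ t, ρ t v = v := by
  have : Fintype T := Fintype.ofFinite T
  obtain ⟨v0, hv0, hv0ne⟩ := (Submodule.ne_bot_iff W).1 hne
  let c : ZMod ℓ →+* F := ZMod.castHom (dvd_refl ℓ) F
  let φ : (T → ZMod ℓ) →+ V :=
    { toFun := fun f => ∑ t, c (f t) • ρ t v0
      map_zero' := by simp
      map_add' := by
        intro f g
        simp only [Pi.add_apply, map_add, add_smul, Finset.sum_add_distrib] }
  have hφ : ∀ f, φ f = ∑ t, c (f t) • ρ t v0 := fun f => rfl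
  have hlp : ℓ ≠ 0 := (Fact.out : ℓ.Prime).ne_zero
  have : NeZero ℓ := ⟨hlp⟩
  have : Finite (T → ZMod ℓ) := inferInstance
  let S : AddSubgroup V := φ.range
  have hSf : Finite S := by
    have : Finite (Set.range φ) := Set.finite_range φ
    exact this
  have hstab : ∀ t : T, ∀ s ∈ S, ρ t s ∈ S := by
    rintro t _ ⟨f, rfl⟩
    refine ⟨fun q => f (t⁻¹ * q), ?_⟩
    rw [hφ, hφ, map_sum]
    refine Fintype.sum_equiv (Equiv.mulLeft t⁻¹) _ _ (fun q => ?_)
    simp only [Equiv.coe_mulLeft, map_smul]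
    rw [← LinearMap.comp_apply, ← hmul, mul_inv_cancel_left]
  letI act : MulAction T S :=
    { smul := fun t s => ⟨ρ t s, hstab t s s.2⟩
      one_smul := by
        intro s
        apply Subtype.ext
        show ρ 1 (s : V) = s
        rw [h1]; rfl
      mul_smul := by
        intro t q s
        apply Subtype.ext
        show ρ (t * q) (s : V) = ρ t (ρ q s)
        rw [hmul]; rfl }
  have hsmul : ∀ (t : T) (s : S), ((t • s : S) : V) = ρ t s := fun t s => rfl
  have hv0S : v0 ∈ S := by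
    refine ⟨Pi.single 1 1, ?_⟩
    rw [hφ, Finset.sum_eq_single 1]
    · simp [h1]
    · intro t _ ht
      simp [Pi.single_apply, ht]
    · intro h; exact absurd (Finset.mem_univ _) h
  have hdvd : ℓ ∣ Nat.card S := by
    have ho : addOrderOf (⟨v0, hv0S⟩ : S) = ℓ := by
      apply addOrderOf_eq_prime
      · apply Subtype.ext
        show ((ℓ • (⟨v0, hv0S⟩ : S) : S) : V) = 0
        rw [AddSubgroup.coe_nsmul, ← Nat.cast_smul_eq_nsmul F, CharP.cast_eq_zero, zero_smul]
      · intro h
        exact hv0ne (congrArg Subtype.val h)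
    rw [← ho]
    exact addOrderOf_dvd_natCard _
  have h0 : (0 : S) ∈ MulAction.fixedPoints T S := by
    intro t
    apply Subtype.ext
    rw [hsmul]
    simp
  obtain ⟨b, hb, hb0⟩ := hT.exists_fixed_point_of_prime_dvd_card_of_fixed_point S hdvd h0
  refine ⟨b, ?_, ?_, ?_⟩
  · obtain ⟨f, hf⟩ := b.2
    rw [← hf, hφ]
    exact W.sum_mem (fun t _ => W.smul_mem _ (hW t v0 hv0))
  · intro h
    exact hb0 (Subtype.ext h.symm)
  · intro t
    have := congrArg Subtype.val (hb t)
    exact this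

variable {Γ : Type} [Group Γ] [Fintype Γ] {F : Type} [Field F]

/-- conjugation action of a subgroup -/
@[instance_reducible] def conjAction (P : Subgroup Γ) : MulAction P Γ where
  smul p g := (p : Γ) * g * (p : Γ)⁻¹
  one_smul g := by
    show ((1 : P) : Γ) * g * ((1 : P) : Γ)⁻¹ = g
    simp
  mul_smul p q g := by
    show ((p * q : P) : Γ) * g * ((p * q : P) : Γ)⁻¹ = (p : Γ) * ((q : Γ) * g * (q : Γ)⁻¹) * (p : Γ)⁻¹
    push_cast
    group

theorem coeff_single_mul' (p g : Γ) (v : MonoidAlgebra F Γ) :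
    (MonoidAlgebra.single p (1 : F) * v).coeff g = v.coeff (p⁻¹ * g) := by
  rw [coeff_mul_group, Finset.sum_eq_single p]
  · simp
  · intro a _ ha
    simp [Finsupp.single_apply, Ne.symm ha]
  · intro h; exact absurd (Finset.mem_univ _) h

/-- an `N`-central element vanishing on `C(P)` kills the `P`-fixed vectors -/
theorem kill_fixed (hC1 : T_C1) {ℓ : ℕ} [Fact ℓ.Prime] [CharP F ℓ] {N P : Subgroup Γ}
    (hP : IsPGroup ℓ P) (hPN : P ≤ N) (hN : N ≤ Subgroup.normalizer (P : Set Γ))
    {z : MonoidAlgebra F Γ} (hz : z ∈ ZA F N N)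
    (hz0 : ∀ g ∈ Subgroup.centralizer (P : Set Γ), z.coeff g = 0) (v : MonoidAlgebra F Γ)
    (hv : ∀ p ∈ P, MonoidAlgebra.single p (1 : F) * v = v) : z * v = 0 := by
  apply MonoidAlgebra.ext
  ext γ
  rw [coeff_mul_group]
  have hfix : ∀ p ∈ P, ∀ g, v.coeff (p * g) = v.coeff g := by
    intro p hp g
    have h := congrArg (fun w => w.coeff (p * g)) (hv p hp)
    simp only [coeff_single_mul'] at h
    rw [← h]; congr 1; group
  have h := @hC1 F _ ℓ _ _ P Γ _ _ (conjAction P) _ hP
    (fun a => z.coeff a * v.coeff (a⁻¹ * γ)) (by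
      intro t a
      show z.coeff ((t : Γ) * a * (t : Γ)⁻¹) * v.coeff (((t : Γ) * a * (t : Γ)⁻¹)⁻¹ * γ)
        = z.coeff a * v.coeff (a⁻¹ * γ)
      rw [hz.2 t (hPN t.2) a]
      by_cases ha : a ∈ N
      · congr 1
        have e1 : ((t : Γ) * a * (t : Γ)⁻¹)⁻¹ * γ
            = (t : Γ) * ((a⁻¹ * (t : Γ)⁻¹ * a) * (a⁻¹ * γ)) := by group
        have hmem : a⁻¹ * (t : Γ)⁻¹ * a ∈ P := by
          have h1 := hN (N.inv_mem ha)
          have h2 := (Subgroup.mem_normalizer_iff.1 h1 (t : Γ)⁻¹).1 (P.inv_mem t.2)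
          simpa using h2
        rw [e1, hfix _ t.2, hfix _ hmem]
      · rw [hz.1 a ha, zero_mul, zero_mul])
  have hrhs : ∑ ω : Γ, (if (∀ t : P, (@HSMul.hSMul P Γ Γ (@instHSMul P Γ
      (conjAction P).toSMul) t ω) = ω) then z.coeff ω * v.coeff (ω⁻¹ * γ) else 0) = 0 := by
    apply Finset.sum_eq_zero
    intro ω _
    split_ifs with hω
    · have hc : ω ∈ Subgroup.centralizer (P : Set Γ) := by
        rw [Subgroup.mem_centralizer_iff]
        intro p hp
        have h1 : (p : Γ) * ω * (p : Γ)⁻¹ = ω := hω ⟨p, hp⟩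
        calc p * ω = (p * ω * p⁻¹) * p := by group
          _ = ω * p := by rw [h1]
      rw [hz0 ω hc, zero_mul]
    · rfl
  rw [h]
  refine Eq.trans ?_ hrhs
  apply Finset.sum_congr rfl
  intro ω _
  congr 1

theorem d3 (hC1 : T_C1) : T_D3 := by
  intro F _ ℓ _ _ Γ _ _ N P hP hPN hN h hh z hz hz0
  -- left multiplication by `z`
  let L : MonoidAlgebra F Γ →ₗ[F] MonoidAlgebra F Γ := LinearMap.mulLeft F z
  have hL : ∀ w, L w = z * w := fun w => rfl
  have : FiniteDimensional F (MonoidAlgebra F Γ) := inferInstance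
  have hLp : ∀ n, ∀ w, (L ^ n) w = z ^ n * w := by
    intro n
    induction n with
    | zero => intro w; simp
    | succ n ih =>
      intro w
      rw [pow_succ, Module.End.mul_apply, ih, hL, pow_succ, mul_assoc]
  obtain ⟨n0, hn0⟩ := Filter.eventually_atTop.1 (Module.End.eventually_disjoint_ker_pow_range_pow L)
  have hn := hn0 (n0 + 1) (Nat.le_succ _)
  set n := n0 + 1 with hndef
  -- the range is zero
  have hR : LinearMap.range (L ^ n) = ⊥ := by
    by_contra hne
    obtain ⟨v, hv, hv0, hvP⟩ := fixed_vec (V := MonoidAlgebra F Γ) (T := P) hP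
      (fun p => LinearMap.mulLeft F (MonoidAlgebra.single (p : Γ) (1 : F)))
      (by
        ext g
        simp [← MonoidAlgebra.one_def])
      (by
        intro s t
        apply LinearMap.ext
        intro w
        simp only [LinearMap.comp_apply, LinearMap.mulLeft_apply, Subgroup.coe_mul]
        rw [← mul_assoc, MonoidAlgebra.single_mul_single, one_mul])
      (LinearMap.range (L ^ n)) (by
        rintro t _ ⟨w, rfl⟩
        refine ⟨MonoidAlgebra.single (t : Γ) (1 : F) * w, ?_⟩
        rw [hLp, hLp, LinearMap.mulLeft_apply, ← mul_assoc, ← mul_assoc]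
        congr 1
        have hzn : z ^ n ∈ ZA F N N := (ZA F N N).pow_mem hz n
        refine (ZA_comm (N := N) (N' := N) (U' := N) ?_ hzn le_rfl).symm
        intro g hg
        rw [MonoidAlgebra.coeff_single, Finsupp.single_apply, if_neg]
        rintro rfl
        exact hg (hPN t.2))
      hne
    have hzv : z * v = 0 := kill_fixed hC1 hP hPN hN hz hz0 v (fun p hp => hvP ⟨p, hp⟩)
    have hker : v ∈ LinearMap.ker (L ^ n) := by
      rw [LinearMap.mem_ker, hLp, hndef, pow_succ, mul_assoc, hzv, mul_zero]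
    have := (Submodule.disjoint_def.1 hn) v hker hv
    exact hv0 this
  have hzn : z ^ n = 0 := by
    have h1 : (L ^ n) 1 ∈ LinearMap.range (L ^ n) := LinearMap.mem_range_self _ _
    rw [hR, Submodule.mem_bot, hLp, mul_one] at h1
    exact h1
  have h2 := hh.map_pow hz n
  rw [hzn, hh.map_zero] at h2
  exact pow_eq_zero_iff (by omega) |>.1 h2.symm

end H25.AM
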