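import Pool.Agent.H25.AM.D4

/-!
# Alperin–McKay reduction (MP_657073_al), modules D5 and D6
-/

open scoped Classical

namespace H25.AM

open AMc

variable {Γ : Type} [Group Γ] [Fintype Γ] {F : Type} [Field F]

/-- an element of `C(P)` conjugated by the normaliser stays in `C(P)` -/
theorem conj_mem_centralizer {P : Subgroup Γ} {n x : Γ}
    (hn : n ∈ Subgroup.normalizer (P : Set Γ)) (hx : x ∈ Subgroup.centralizer (P : Set Γ)) :
    n * x * n⁻¹ ∈ Subgroup.centralizer (P : Set Γ) := by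
  rw [Subgroup.mem_centralizer_iff] at hx ⊢
  intro p hp
  have h1 : n⁻¹ * p * n ∈ P := by
    have := (Subgroup.mem_normalizer_iff.1 ((Subgroup.normalizer (P : Set Γ)).inv_mem hn) p).1 hp
    simpa using this
  have h2 := hx _ h1
  calc p * (n * x * n⁻¹) = n * ((n⁻¹ * p * n) * x) * n⁻¹ := by group
    _ = n * (x * (n⁻¹ * p * n)) * n⁻¹ := by rw [h2]
    _ = n * x * n⁻¹ * p := by group

theorem centralizer_comm {P : Subgroup Γ} {x : Γ} :
    x ∈ Subgroup.centralizer (P : Set Γ) ↔ P ≤ Subgroup.centralizer {x} := by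
  rw [Subgroup.mem_centralizer_iff]
  constructor
  · intro h p hp
    exact Subgroup.mem_centralizer_singleton_iff.2 (h p hp)
  · intro h p hp
    exact Subgroup.mem_centralizer_singleton_iff.1 (h hp)

theorem centralizer_le_norm {P : Subgroup Γ} {x : Γ} (hx : x ∈ Subgroup.centralizer (P : Set Γ)) :
    x ∈ Subgroup.normalizer (P : Set Γ) := by
  apply Subgroup.mem_normalizer_iff.2
  intro p
  rw [Subgroup.mem_centralizer_iff] at hx
  constructor
  · intro hp
    have := hx p hp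
    have e : x * p * x⁻¹ = p := by rw [← this]; group
    rw [e]; exact hp
  · intro hp
    have := hx _ hp
    have e : p = x * p * x⁻¹ := by
      have h2 : x * p * x⁻¹ * x = x * (x * p * x⁻¹) := this
      have h3 : x * p = x * (x * p * x⁻¹) := by
        rw [← h2]; group
      exact mul_left_cancel h3
    rw [e]; exact hp

/-- the class of `x` meets `C(P)` in one class of the normaliser -/
theorem filter_cls {ℓ : ℕ} [Fact ℓ.Prime] {K U P : Subgroup Γ} (hKU : K ≤ U)
    (hn : ∀ u ∈ U, ∀ g ∈ K, u * g * u⁻¹ ∈ K) (hP : IsPGroup ℓ P) (hPK : P ≤ K) {x : Γ}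
    (hxC : x ∈ Subgroup.centralizer (P : Set Γ))
    (hx : ¬ ℓ ∣ P.relIndex (Subgroup.centralizer {x} ⊓ K)) :
    (cls U x).filter (fun g => g ∈ Subgroup.centralizer (P : Set Γ))
      = cls (U ⊓ Subgroup.normalizer (P : Set Γ)) x := by
  ext y
  rw [Finset.mem_filter, mem_cls, mem_cls]
  constructor
  · rintro ⟨⟨u, hu, hy⟩, hyC⟩
    exact fusion hKU hn hP hPK hxC hx hyC hu hy
  · rintro ⟨n, hn', rfl⟩
    exact ⟨⟨n, hn'.1, rfl⟩, conj_mem_centralizer hn'.2 hxC⟩

theorem br_cls {ℓ : ℕ} [Fact ℓ.Prime] {K U P : Subgroup Γ} (hKU : K ≤ U)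
    (hn : ∀ u ∈ U, ∀ g ∈ K, u * g * u⁻¹ ∈ K) (hP : IsPGroup ℓ P) (hPK : P ≤ K) {x : Γ}
    (hxC : x ∈ Subgroup.centralizer (P : Set Γ))
    (hx : ¬ ℓ ∣ P.relIndex (Subgroup.centralizer {x} ⊓ K)) :
    br P (csum F (cls U x)) = csum F (cls (U ⊓ Subgroup.normalizer (P : Set Γ)) x) := by
  rw [br_csum, filter_cls hKU hn hP hPK hxC hx]

theorem d5 (hD1 : T_D1) (hD2 : T_D2) : T_D5 := by
  intro F _ ℓ _ _ Γ _ _ N P hP hPN k hk hdef
  set N' := N ⊓ Subgroup.normalizer (P : Set Γ) with hN'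
  have hbr : ∀ z ∈ ZA F N N, br P z ∈ ZA F N' N' := fun z hz => hD2 F Γ N N P z hz
  have hmono : ∀ z ∈ ZA F N N, z ∈ ZA F ⊤ P := fun z hz => ZA_mono le_top hPN hz
  refine ⟨⟨?_, ?_, ?_, ?_⟩, ⟨hP, hPN, ?_, ?_⟩⟩
  · show k (br P 1) = 1
    rw [br_one]; exact hk.map_one
  · intro z hz w hw
    show k (br P (z + w)) = k (br P z) + k (br P w)
    rw [br_add]; exact hk.map_add _ (hbr z hz) _ (hbr w hw)
  · intro z hz w hw
    show k (br P (z * w)) = k (br P z) * k (br P w)
    rw [hD1 F ℓ Γ P hP z (hmono z hz) w (hmono w hw)]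
    exact hk.map_mul _ (hbr z hz) _ (hbr w hw)
  · intro c z hz
    show k (br P (c • z)) = c * k (br P z)
    rw [br_smul]; exact hk.map_smul c _ (hbr z hz)
  · obtain ⟨_, _, ⟨x, hxN', hkx, hPx, hind⟩, _⟩ := hdef
    have hPC : P ≤ Subgroup.centralizer {x} ⊓ N := le_inf hPx hPN
    have hind' : ¬ ℓ ∣ P.relIndex (Subgroup.centralizer {x} ⊓ N) := by
      apply not_dvd_of_normalizer hP hPC
      rw [inf_assoc]; exact hind
    refine ⟨x, hxN'.1, ?_, hPx, hind'⟩
    show k (br P (csum F (cls N x))) ≠ 0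
    rw [br_cls le_rfl (nor_self N) hP hPN (centralizer_comm.2 hPx) hind']
    exact hkx
  · intro x _ hne
    have hne' : k (br P (csum F (cls N x))) ≠ 0 := hne
    rw [br_csum] at hne'
    have hex : ((cls N x).filter (fun g => g ∈ Subgroup.centralizer (P : Set Γ))).Nonempty := by
      by_contra h
      rw [Finset.not_nonempty_iff_eq_empty] at h
      apply hne'
      rw [h]
      have : csum F (∅ : Finset Γ) = 0 := by simp [csum]
      rw [this]; exact hk.map_zero
    obtain ⟨y, hy⟩ := hex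
    rw [Finset.mem_filter, mem_cls] at hy
    obtain ⟨⟨u, hu, hyu⟩, hyC⟩ := hy
    refine ⟨u⁻¹, N.inv_mem hu, fun d hd => ?_⟩
    have h1 := Subgroup.mem_centralizer_iff.1 hyC d hd
    apply Subgroup.mem_centralizer_singleton_iff.2
    rw [hyu] at h1
    have e1 : u⁻¹ * d * u⁻¹⁻¹ * x = u⁻¹ * (d * (u * x * u⁻¹)) * u := by group
    rw [e1, h1]; group

theorem d5b (hD3 : T_D3) : T_D5b := by
  intro F _ ℓ _ _ Γ _ _ N P h k hh hdef hk hbr
  obtain ⟨hP, hPN, ⟨x, hxN, hhx, hPx, hind⟩, _⟩ := hdef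
  set N' := N ⊓ Subgroup.normalizer (P : Set Γ) with hN'
  have hPC : P ≤ Subgroup.centralizer {x} ⊓ N := le_inf hPx hPN
  have hPN' : P ≤ N' := le_inf hPN Subgroup.le_normalizer
  refine ⟨hP, hPN', ⟨x, ⟨hxN, centralizer_le_norm (centralizer_comm.2 hPx)⟩, ?_, hPx, ?_⟩, ?_⟩
  · rw [← br_cls le_rfl (nor_self N) hP hPN (centralizer_comm.2 hPx) hind,
      ← hbr _ (csum_cls_mem_self hxN)]
    exact hhx
  · intro hd
    apply hind
    have h1 := relIndex_normalizer_modEq hP hPC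
    rw [inf_assoc] at h1
    exact (Nat.modEq_zero_iff_dvd).1 (h1.symm.trans ((Nat.modEq_zero_iff_dvd).2 hd))
  · intro y hy hky
    refine ⟨1, N'.one_mem, ?_⟩
    have hex : ∃ g ∈ Subgroup.centralizer (P : Set Γ), (csum F (cls N' y)).coeff g ≠ 0 := by
      by_contra hcon
      push Not at hcon
      exact hky (hD3 F ℓ Γ N' P hP hPN' inf_le_right k hk _ (csum_cls_mem_self hy) hcon)
    obtain ⟨g, hgC, hg⟩ := hex
    rw [coeff_csum] at hg
    have hgc : g ∈ cls N' y := by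
      by_contra h
      rw [if_neg h] at hg
      exact hg rfl
    obtain ⟨n, hn, hgn⟩ := mem_cls.1 hgc
    have hyC : y ∈ Subgroup.centralizer (P : Set Γ) := by
      have := conj_mem_centralizer ((Subgroup.normalizer (P : Set Γ)).inv_mem hn.2) hgC
      rw [hgn] at this
      have e : n⁻¹ * (n * y * n⁻¹) * n⁻¹⁻¹ = y := by group
      rwa [e] at this
    intro d hd
    have := centralizer_comm.1 hyC hd
    simpa using this

/-- a maximal `ℓ`-subgroup has index prime to `ℓ` -/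
theorem not_dvd_of_maximal {ℓ : ℕ} [Fact ℓ.Prime] {P C : Subgroup Γ} (hP : IsPGroup ℓ P)
    (hPC : P ≤ C) (hmax : ∀ R : Subgroup Γ, IsPGroup ℓ R → P ≤ R → R ≤ C → R ≤ P) :
    ¬ ℓ ∣ P.relIndex C := by
  have hp : IsPGroup ℓ (P.subgroupOf C) := hP.comap_of_injective _ Subtype.val_injective
  obtain ⟨T, hT⟩ := hp.exists_le_sylow
  have hR : IsPGroup ℓ ((T : Subgroup C).map C.subtype) := T.2.map _
  have h1 : (T : Subgroup C).map C.subtype ≤ P := by
    apply hmax _ hR
    · intro p hpP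
      exact ⟨⟨p, hPC hpP⟩, hT (Subgroup.mem_subgroupOf.2 hpP), rfl⟩
    · rintro _ ⟨t, _, rfl⟩
      exact t.2
  have h2 : (T : Subgroup C) = P.subgroupOf C := by
    apply le_antisymm _ hT
    intro t ht
    exact Subgroup.mem_subgroupOf.2 (h1 ⟨t, ht, rfl⟩)
  have h3 := T.not_dvd_index
  rw [h2] at h3
  exact h3

theorem d6 (hC2 : T_C2) (hD2 : T_D2) (hD3 : T_D3) : T_D6 := by
  intro F _ ℓ _ _ Γ _ _ K U P hKU hn hP hPK h k hh hk heq hex a ha
  obtain ⟨z0, hz0, hsupp, hz0ne⟩ := hex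
  set K' := K ⊓ Subgroup.normalizer (P : Set Γ) with hK'
  set U' := U ⊓ Subgroup.normalizer (P : Set Γ) with hU'
  have hK'U' : K' ≤ U' := inf_le_inf_right _ hKU
  have hPK' : P ≤ K' := le_inf hPK Subgroup.le_normalizer
  have hn' : ∀ u ∈ U', ∀ g ∈ K', u * g * u⁻¹ ∈ K' := by
    intro u hu g hg
    exact ⟨hn u hu.1 g hg.1, (Subgroup.normalizer (P : Set Γ)).mul_mem
      ((Subgroup.normalizer (P : Set Γ)).mul_mem hu.2 hg.2)
      ((Subgroup.normalizer (P : Set Γ)).inv_mem hu.2)⟩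
  set j := br P z0 with hj
  have hjm : j ∈ ZA F K' U' := hD2 F Γ K U P z0 hz0
  have hmono : ∀ {z : MonoidAlgebra F Γ}, z ∈ ZA F K' U' → z ∈ ZA F K' K' :=
    fun hz => ZA_mono le_rfl hK'U' hz
  -- support of `j`
  have hjs : ∀ x, j.coeff x ≠ 0 → x ∈ SD ℓ K' {P} := by
    intro x hx
    rw [hj, coeff_br] at hx
    have hxC : x ∈ Subgroup.centralizer (P : Set Γ) := by
      by_contra hc
      rw [if_neg hc] at hx
      exact hx rfl
    rw [if_pos hxC] at hx
    have hSD := hsupp x hx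
    refine ⟨⟨hSD.1, centralizer_le_norm hxC⟩, fun R hR hRK hRc => ⟨P, rfl, ?_⟩⟩
    -- `R ⊔ P` is an `ℓ`-group
    have hRN : R ≤ Subgroup.normalizer (P : Set Γ) := hRK.trans inf_le_right
    have hRP : IsPGroup ℓ (R ⊔ P : Subgroup Γ) := by
      apply hR.to_sup_of_normal_right' hP
      exact hRN
    obtain ⟨D, ⟨u, hu, rfl⟩, hD⟩ := hSD.2 (R ⊔ P) hRP
      (sup_le (hRK.trans inf_le_left) hPK)
      (sup_le hRc (centralizer_comm.1 hxC))
    have hcard : Nat.card (R ⊔ P : Subgroup Γ) ≤ Nat.card P := by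
      rw [← card_map_conj P u]
      exact Subgroup.card_le_of_le hD
    have : (P : Subgroup Γ) = R ⊔ P := Subgroup.eq_of_le_of_card_ge le_sup_right hcard
    rw [this]; exact le_sup_left
  -- the product
  have haj : a * j ∈ ZA F K' U' := (ZA F K' U').mul_mem ha hjm
  have hajs : ∀ g, (a * j).coeff g ≠ 0 → g ∈ SD ℓ K' {P} := by
    intro g hg
    rw [ZA_mul_comm hK'U' ha hjm] at hg
    exact hC2 F ℓ Γ K' {P} j (hmono hjm) a (hmono ha) hjs g hg
  set w := br P (a * j) with hw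
  have hwm : w ∈ ZA F K' U' := by
    have := hD2 F Γ K' U' P (a * j) haj
    rw [hK', hU', inf_assoc, inf_assoc, inf_idem, ← hK', ← hU'] at this
    exact this
  have hw'm : a * j - w ∈ ZA F K' U' := (ZA F K' U').sub_mem haj hwm
  have hvan : ∀ g ∈ Subgroup.centralizer (P : Set Γ), (a * j - w).coeff g = 0 := by
    intro g hg
    rw [MonoidAlgebra.coeff_sub, Finsupp.sub_apply, hw, coeff_br, if_pos hg, sub_self]
  have hh' : h (a * j - w) = 0 :=
    hD3 F ℓ Γ K' P hP hPK' inf_le_right h hh _ (hmono hw'm) hvan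
  have hk' : k (a * j - w) = 0 :=
    hD3 F ℓ Γ K' P hP hPK' inf_le_right k hk _ (hmono hw'm) hvan
  have hhw : h (a * j) = h w := by
    rw [hh.map_sub (hmono haj) (hmono hwm)] at hh'
    exact sub_eq_zero.1 hh'
  have hkw : k (a * j) = k w := by
    rw [hk.map_sub (hmono haj) (hmono hwm)] at hk'
    exact sub_eq_zero.1 hk'
  -- `h w = k w`
  have hwk : h w = k w := by
    by_contra hne
    have hne' : (fun z => h z - k z) w ≠ 0 := sub_ne_zero.2 hne
    obtain ⟨x, hx, hwx, hxne⟩ := exists_cls_ne_zero hn' (fun z => h z - k z)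
      (by
        intro z hz v hv
        show h (z + v) - k (z + v) = _
        rw [hh.map_add z (hmono hz) v (hmono hv), hk.map_add z (hmono hz) v (hmono hv)]
        ring)
      (by
        intro c z hz
        show h (c • z) - k (c • z) = _
        rw [hh.map_smul c z (hmono hz), hk.map_smul c z (hmono hz)]
        ring) w hwm hne'
    apply hxne
    rw [hw, coeff_br] at hwx
    have hxC : x ∈ Subgroup.centralizer (P : Set Γ) := by
      by_contra hc
      rw [if_neg hc] at hwx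
      exact hwx rfl
    rw [if_pos hxC] at hwx
    have hSD := hajs x hwx
    have hPx := centralizer_comm.1 hxC
    have hind' : ¬ ℓ ∣ P.relIndex (Subgroup.centralizer {x} ⊓ K') := by
      apply not_dvd_of_maximal hP (le_inf hPx hPK')
      intro R hR _ hRC
      obtain ⟨D, hD, hRD⟩ := hSD.2 R hR (hRC.trans inf_le_right) (hRC.trans inf_le_left)
      rw [Set.mem_singleton_iff.1 hD] at hRD
      exact hRD
    have hind : ¬ ℓ ∣ P.relIndex (Subgroup.centralizer {x} ⊓ K) := by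
      apply not_dvd_of_normalizer hP (le_inf hPx hPK)
      rw [inf_assoc]; exact hind'
    show h (csum F (cls U' x)) - k (csum F (cls U' x)) = 0
    rw [← br_cls hKU hn hP hPK hxC hind, heq _ (csum_cls_mem hn hx.1), sub_self]
  have hfin : h a * h j = k a * h j := by
    rw [← hh.map_mul a (hmono ha) j (hmono hjm), hhw, hwk, ← hkw,
      hk.map_mul a (hmono ha) j (hmono hjm)]
    congr 1
    exact (heq z0 hz0).symm
  exact mul_right_cancel₀ hz0ne hfin

end H25.AM
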